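import Pool.Agent.Helper27.TRB.Seq
import Pool.Agent.Helper27.TRB.Goals2
import Pool.Agent.Helper57.HX.Bk
import Pool.Agent.Helper15.RBC.RB3

/-! # TRB: the form `rho H + LM ψ' + P h` is positive definite for some `ψ'` (TB3) -/

open Complex Metric Set Filter Topology MeasureTheory
open scoped ContDiff ComplexConjugate ComplexOrder Manifold Matrix

namespace Pool.Agent.Helper40.TRB

open Pool.Agent.Helper95.Lin Pool.Agent.Helper16.Abund Pool.Agent.Helper92.Orb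
  Pool.Agent.Helper10.SP Pool.Agent.Helper95.RK Pool.Agent.Helper57.HS
  Pool.Agent.Helper15.HS Pool.Agent.Helper15.GS Pool.Agent.Helper57.RBC
  Pool.Agent.Helper57.HX Pool.Agent.Helper16.HS.AYTP Pool.Agent.Helper27.TRB
open Pool.Agent.Helper5.GS (integrableOn_kap cont_det gav_pt)
open Pool.Agent.Helper88.GS (smul_psd smul_pd le_tr_smul hermi_add)

universe u

section

variable {n : ℕ} {T : Set (Cn n)} {G : Type u} [Group G] {R : G → Cn n → Cn n → Prop}
  {H h χ : Cn n → Matrix (Fin n) (Fin n) ℂ} {μ : ℝ} {ψ : Cn n → ℝ} {r : ℕ}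
  {P : Cn n → Matrix (Fin n) (Fin n) ℂ}

/-- The form `P h` is semidefinite. -/
theorem ph_psd (D : TDat T R H h χ μ ψ) (hP : ParT r T R H h χ P) :
    ∀ x ∈ T, (P x * h x).PosSemidef := by
  intro x hx
  have e : P x * h x = P x * h x * (P x)ᴴ := by
    have h1 := hP.herm x hx
    calc P x * h x = P x * P x * h x := by rw [hP.proj x hx]
      _ = P x * (P x * h x) := by rw [Matrix.mul_assoc]
      _ = P x * (h x * (P x)ᴴ) := by rw [h1]
      _ = P x * h x * (P x)ᴴ := by rw [Matrix.mul_assoc]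
  rw [e]
  exact (D.her.posDef x hx).posSemidef.mul_mul_conjTranspose_same _

/-- `P h + χ` is a datum of the exact metric. -/
theorem tbdat (hRHOI : S_RHOI.{u}) (D : TDat T R H h χ μ ψ) (hP : ParT r T R H h χ P) :
    BDat T R H (fun x => P x * h x + χ x) := by
  have hT := D.ket.et.isOpen
  refine ⟨?_, ?_, ?_, ?_⟩
  · exact Pool.Agent.Helper97.HS.chf_ad hT hP.chf (chi_chf hRHOI D)
  · exact Pool.Agent.Helper97.HS.invH_ad hP.inv (chi_inv hRHOI D)
  · exact fun x hx => (ph_psd D hP x hx).add (D.psd x hx)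
  · exact hP.vol

/-- Existence for `δ > 0`. -/
theorem tb1 (hAYG : S_AYG.{u}) (hWIRT : S_WIRT) (hRHOI : S_RHOI.{u})
    (D : TDat T R H h χ μ ψ) (hP : ParT r T R H h χ P) {δ : ℝ} (hδ : 0 < δ) :
    ∃ Q, BKE T R H (fun x => P x * h x + χ x) δ Q := by
  have hT := D.ket.et.isOpen
  have hμ := D.mu
  -- the Kähler metric `X = δ H + P h + (1 + 1/μ) χ` in the class of `rho H + X₀`
  have hX : KEt T R fun x => ((δ : ℂ) • H x + P x * h x) + ((1 + μ⁻¹ : ℝ) : ℂ) • χ x := by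
    refine Pool.Agent.Helper61.GS.ket_add (Pool.Agent.Helper61.GS.ket_add (ket_smul D.ket hδ)
      hP.chf hP.inv (ph_psd D hP))
      (Pool.Agent.Helper97.HS.chf_sm hT (chi_chf hRHOI D) (1 + μ⁻¹))
      (Pool.Agent.Helper97.HS.invH_sm (chi_inv hRHOI D) ((1 + μ⁻¹ : ℝ) : ℂ)) fun x hx => ?_
    exact (D.psd x hx).smul (Complex.zero_le_real.2 (by positivity))
  have hf : InvF T R (fun x => μ⁻¹ * ψ x) := by
    refine ⟨contDiffOn_const.mul D.psi.1, fun γ x y hR => ?_⟩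
    have h1 := D.psi.2 γ x y hR
    simp only
    rw [h1]
  obtain ⟨Q, hQ, hQe⟩ := of_pot hAYG hWIRT hRHOI (B := H)
    (X₀ := fun x => ((δ : ℂ) • H x + P x * h x) + χ x) D.ket hX hf (fun x hx => by
      have e1 : (fun y => μ⁻¹ * ψ y) = fun y => μ⁻¹ * ψ y + 0 * ψ y := by
        funext y; ring
      rw [e1, Pool.Agent.Helper94.HS.LM_lin hWIRT hT D.psi.1 D.psi.1 μ⁻¹ 0 hx]
      have h1 : ((μ⁻¹ : ℝ) : ℂ) • χ x = rho H x + ((μ⁻¹ : ℝ) : ℂ) • LM ψ x := by
        rw [D.chi x hx, smul_add, smul_smul, ← Complex.ofReal_mul, inv_mul_cancel₀ hμ.ne',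
          Complex.ofReal_one, one_smul]
      have h2 : ((1 + μ⁻¹ : ℝ) : ℂ) • χ x = χ x + ((μ⁻¹ : ℝ) : ℂ) • χ x := by
        push_cast
        module
      rw [h2, h1]
      push_cast
      module)
  refine ⟨Q, hQ, fun x hx => ?_⟩
  rw [hQe x hx]
  show Q x - ((δ : ℂ) • H x + P x * h x + χ x) = Q x - (P x * h x + χ x) - (δ : ℂ) • H x
  abel

/-- Bounds of the volumes. -/
theorem tv0 (hAYG : S_AYG.{u}) (hWIRT : S_WIRT) (hRHOI : S_RHOI.{u}) (hMOMG : S_MOMG.{u})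
    (hNULL0 : Pool.Agent.Helper95.HS.S_NULL0.{u}) (D : TDat T R H h χ μ ψ)
    (hP : ParT r T R H h χ P) {κ : Cn n → ℝ} (hκ : IsPUE T R κ) :
    ∃ V0 V1 : ℝ, 0 < V0 ∧ ∀ s : ℝ, 0 ≤ s → s ≤ 2 →
      V0 ≤ ∫ x in T, κ x * (rho H x + (P x * h x + χ x) + (s : ℂ) • H x).det.re ∧
      ∫ x in T, κ x * (rho H x + (P x * h x + χ x) + (s : ℂ) • H x).det.re ≤ V1 := by
  have hβ := tbdat hRHOI D hP
  have hT : IsOpen T := D.ket.et.isOpen
  obtain ⟨hr1, -⟩ := hRHOI T R H D.ket.et (her_ket D.ket)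
  set f : ℝ → ℝ := fun s =>
    ∫ x in T, κ x * (rho H x + (P x * h x + χ x) + (s : ℂ) • H x).det.re with hf
  have hc : ContinuousOn f (Icc (0 : ℝ) 2) := Pool.Agent.Helper15.RBC.cont_vol hT hκ.test
    (A := fun x => rho H x + (P x * h x + χ x)) (H := H)
    (fun i j => ((hr1.smooth i j).continuousOn).add (hβ.chf.smooth i j).continuousOn)
    fun i j => (D.ket.smooth i j).continuousOn
  have hpos : ∀ s : ℝ, 0 ≤ s → 0 < f s := by
    intro s hs
    rcases hs.eq_or_lt with rfl | hs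
    · have h0 := hβ.vol κ hκ
      simp only [hf, Complex.ofReal_zero, zero_smul, add_zero]
      exact h0
    · obtain ⟨Q, hQ⟩ := tb1 hAYG hWIRT hRHOI D hP hs
      have h1 := xvb hRHOI hMOMG D.ket hβ hκ hQ 0
      rw [add_zero] at h1
      have h2 : f s = Pool.Agent.Helper95.HS.vol T κ Q := by
        simp only [hf]
        rw [← h1]
        unfold Pool.Agent.Helper95.HS.vol
        simp
      rw [h2]
      exact (hNULL0 T R Q hQ.1 κ hκ).1
  have hne : (Icc (0 : ℝ) 2).Nonempty := ⟨0, by norm_num, by norm_num⟩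
  obtain ⟨s0, hs0, hmin⟩ := isCompact_Icc.exists_isMinOn hne hc
  obtain ⟨s1, hs1, hmax⟩ := isCompact_Icc.exists_isMaxOn hne hc
  exact ⟨f s0, f s1, hpos s0 hs0.1, fun s hs hs2 => ⟨hmin ⟨hs, hs2⟩, hmax ⟨hs, hs2⟩⟩⟩

/-- The average of the trace of `h` is bounded. -/
theorem tav (hTRC : Pool.Agent.Helper95.HS.S_TRC) (hRHOI : S_RHOI.{u}) (hMOMG : S_MOMG.{u})
    (hRHB : S_RHB.{u}) (D : TDat T R H h χ μ ψ)
    {β : Cn n → Matrix (Fin n) (Fin n) ℂ}
    (hβ : BDat T R H β) {κ : Cn n → ℝ} (hκ : IsPUE T R κ) {V0 V1 : ℝ} (hV0 : 0 < V0)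
    (hV : ∀ s : ℝ, 0 ≤ s → s ≤ 2 →
      V0 ≤ ∫ x in T, κ x * (rho H x + β x + (s : ℂ) • H x).det.re ∧
      ∫ x in T, κ x * (rho H x + β x + (s : ℂ) • H x).det.re ≤ V1) :
    ∃ C : ℝ, 0 ≤ C ∧ ∀ (δ : ℝ) (Q : Cn n → Matrix (Fin n) (Fin n) ℂ), 0 < δ → δ ≤ 1 →
      BKE T R H β δ Q →
      ∫ x in T, κ x * (Q x).det.re * (Matrix.trace (h x * (Q x)⁻¹)).re ≤
        C * Pool.Agent.Helper95.HS.vol T κ Q := by
  obtain ⟨K, hK, hKb⟩ := hRHB T R H D.ket.et (her_ket D.ket) h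
    (fun x hx => (D.her.posDef x hx).isHermitian) (fun i j => (D.her.smooth i j).continuousOn)
    D.her.inv
  have hV01 : V0 ≤ V1 := (hV 0 le_rfl (by norm_num)).1.trans (hV 0 le_rfl (by norm_num)).2
  have hT : IsOpen T := D.ket.et.isOpen
  have hV1 : 0 < V1 := hV0.trans_le hV01
  refine ⟨K * V1 / V0, by positivity, ?_⟩
  intro δ Q hδ hδ1 hQ
  have hk := hQ.1
  have hsm1 : ∀ i j, ContDiffOn ℝ ∞ (fun x => (Q x + ((1 : ℝ) : ℂ) • H x) i j) T := by
    intro i j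
    simp only [Matrix.add_apply, Complex.ofReal_one, one_smul]
    exact (hk.smooth i j).add (D.ket.smooth i j)
  have hi0 : IntegrableOn (fun x => κ x * (Q x).det.re) T :=
    integrableOn_kap hT hκ.test (cont_det hk.smooth)
  have hi1 : IntegrableOn (fun x => κ x * (Q x + ((1 : ℝ) : ℂ) • H x).det.re) T :=
    integrableOn_kap hT hκ.test (cont_det hsm1)
  have hvol : V0 ≤ Pool.Agent.Helper95.HS.vol T κ Q := by
    have h1 := xvb hRHOI hMOMG D.ket hβ hκ hQ 0
    rw [add_zero] at h1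
    have h2 : Pool.Agent.Helper95.HS.vol T κ Q =
        ∫ x in T, κ x * (Q x + ((0 : ℝ) : ℂ) • H x).det.re := by
      unfold Pool.Agent.Helper95.HS.vol
      simp
    rw [h2, h1]
    exact (hV δ hδ.le (by linarith)).1
  have hV1b : ∫ x in T, κ x * (Q x + ((1 : ℝ) : ℂ) • H x).det.re ≤ V1 := by
    rw [xvb hRHOI hMOMG D.ket hβ hκ hQ 1]
    exact (hV (δ + 1) (by linarith) (by linarith)).2
  have hpt : ∀ x ∈ T, 0 ≤ (Q x).det.re * (Matrix.trace (h x * (Q x)⁻¹)).re ∧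
      (Q x).det.re * (Matrix.trace (h x * (Q x)⁻¹)).re ≤
        K * ((Q x + ((1 : ℝ) : ℂ) • H x).det.re - (Q x).det.re) := by
    intro x hx
    have hQx := hk.posDef x hx
    have hd : 0 < (Q x).det.re := (Complex.pos_iff.1 hQx.det_pos).1
    have h1 := (gav_pt hTRC (Q x) (H x) (H x) hQx (D.ket.posDef x hx) (D.ket.posDef x hx) 1
      one_pos (by
        rw [Complex.ofReal_one, one_smul, sub_self]
        exact Matrix.PosSemidef.zero)).2
    rw [inv_one, one_mul] at h1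
    have h2 := tr_mul_nonneg (hKb x hx).2 hQx.posSemidef.inv
    rw [Matrix.sub_mul, Matrix.trace_sub, Matrix.smul_mul, Matrix.trace_smul, smul_eq_mul,
      Complex.sub_re, Complex.re_ofReal_mul] at h2
    have h3 := tr_mul_nonneg (D.her.posDef x hx).posSemidef hQx.posSemidef.inv
    refine ⟨mul_nonneg hd.le h3, ?_⟩
    calc (Q x).det.re * (Matrix.trace (h x * (Q x)⁻¹)).re
        ≤ (Q x).det.re * (K * (Matrix.trace (H x * (Q x)⁻¹)).re) :=
          mul_le_mul_of_nonneg_left (by linarith) hd.le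
      _ = K * ((Q x).det.re * (Matrix.trace (H x * (Q x)⁻¹)).re) := by ring
      _ ≤ _ := mul_le_mul_of_nonneg_left h1 hK.le
  have hmono : ∫ x in T, κ x * (Q x).det.re * (Matrix.trace (h x * (Q x)⁻¹)).re ≤
      ∫ x in T, (K * (κ x * (Q x + ((1 : ℝ) : ℂ) • H x).det.re - κ x * (Q x).det.re)) := by
    refine integral_mono_of_nonneg ?_ ((hi1.sub hi0).const_mul _) ?_
    · refine (ae_restrict_iff' hT.measurableSet).2 (Eventually.of_forall fun x hx => ?_)
      have h1 := mul_nonneg (hκ.nonneg x) (hpt x hx).1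
      simp only [Pi.zero_apply]
      nlinarith
    · refine (ae_restrict_iff' hT.measurableSet).2 (Eventually.of_forall fun x hx => ?_)
      have := mul_le_mul_of_nonneg_left (hpt x hx).2 (hκ.nonneg x)
      simp only
      linarith
  have hsp : ∫ x in T, (K * (κ x * (Q x + ((1 : ℝ) : ℂ) • H x).det.re - κ x * (Q x).det.re)) =
      K * ((∫ x in T, κ x * (Q x + ((1 : ℝ) : ℂ) • H x).det.re) -
      ∫ x in T, κ x * (Q x).det.re) := by
    rw [integral_const_mul, integral_sub hi1 hi0]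
  rw [hsp] at hmono
  have h5 : ∫ x in T, κ x * (Q x).det.re = Pool.Agent.Helper95.HS.vol T κ Q := rfl
  rw [h5] at hmono
  set V := Pool.Agent.Helper95.HS.vol T κ Q with hVdef
  have hVp : 0 < V := hV0.trans_le hvol
  have h6 : K * V1 ≤ K * V1 / V0 * V := by
    rw [div_mul_eq_mul_div, le_div_iff₀ hV0]
    exact mul_le_mul_of_nonneg_left hvol (by positivity)
  have h7 : K * (∫ x in T, κ x * (Q x + ((1 : ℝ) : ℂ) • H x).det.re) ≤ K * V1 :=
    mul_le_mul_of_nonneg_left hV1b hK.le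
  have h8 : 0 ≤ K * V := by positivity
  refine hmono.trans ?_
  rw [mul_sub]
  linarith

end

/-- TB3. -/
theorem tb3 (hAYG : S_AYG.{u}) (hWIRT : S_WIRT) (hRHOI : S_RHOI.{u}) (hMOMG : S_MOMG.{u})
    (hNULL0 : Pool.Agent.Helper95.HS.S_NULL0.{u}) (hTRC : Pool.Agent.Helper95.HS.S_TRC)
    (hRHB : S_RHB.{u}) (hPUE : S_PUE.{u}) (hCMPG : S_CMPG.{u})
    (hSBG : Pool.Agent.Helper95.HS.S_SBG.{u}) (hDENS : Pool.Agent.Helper95.HS.S_DENS.{u})
    (hTGLG : S_TGLG.{u}) : S_TB3.{u} := by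
  intro n hn T G _ R H h χ μ ψ D r P hP
  have hH := D.ket
  have hE := hH.et
  have hT := hE.isOpen
  obtain ⟨κ, hκ⟩ := hPUE T R hE
  obtain ⟨c, C, hc, hC, hcmp⟩ := hCMPG T R H h hH D.her
  have hβ' := tbdat hRHOI D hP
  obtain ⟨hrho1, hrho2, -, -, hrho5⟩ := hRHOI T R H hE (her_ket hH)
  obtain ⟨V0, V1, hV0, hV⟩ := tv0 hAYG hWIRT hRHOI hMOMG hNULL0 D hP hκ
  obtain ⟨C2, hC2, hAv⟩ := tav hTRC hRHOI hMOMG hRHB D hβ' hκ hV0 hV
  have hPh := ph_psd D hP
  set β : Cn n → Matrix (Fin n) (Fin n) ℂ := fun x => P x * h x + χ x with hβ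
  have hβpsd : ∀ x ∈ T, (β x).PosSemidef := hβ'.psd
  have hβh : ∀ x ∈ T, (β x).IsHermitian := fun x hx => (hβpsd x hx).isHermitian
  -- the bound of the fixed forms
  obtain ⟨K0, hK0, hK0b⟩ := hRHB T R H hE (her_ket hH) (fun x => rho H x + β x)
    (fun x hx => (hrho1.herm x hx).add (hβh x hx))
    (fun i j => ((hrho1.smooth i j).continuousOn).add ((hβ'.chf.smooth i j).continuousOn))
    (Pool.Agent.Helper97.HS.invH_ad hrho2 hβ'.inv)
  set a : ℝ := K0 + 1 with ha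
  obtain ⟨K, hK, hDb⟩ := hDENS T R H hH κ hκ a
  obtain ⟨C', hSb⟩ := hSBG hn T R H hH κ hκ a K
  set B : ℝ := |C'| * C2 + 1 with hB
  have hBpos : 0 < B := by positivity
  -- uniform bound
  have key : ∀ (δ : ℝ) (Q : Cn n → Matrix (Fin n) (Fin n) ℂ), 0 < δ → δ ≤ 1 →
      BKE T R H β δ Q → ∀ x ∈ T, (Matrix.trace (h x * (Q x)⁻¹)).re ≤ B := by
    intro δ Q hδ hδ1 hQ x hx
    have hQk := hQ.1
    obtain ⟨hφi, hφ⟩ := hrho5 Q (her_ket hQk)
    have hLM : ∀ y ∈ T, LM (fun y => ld Q y - ld H y) y = Q y - β y - (δ : ℂ) • H y - rho H y := by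
      intro y hy
      have h1 := hφ y hy
      have h2 := hQ.2 y hy
      rw [h2] at h1
      rw [h1]
      abel
    have hHd : ∀ y ∈ T, (((1 - δ : ℝ) : ℂ) • H y).PosSemidef := fun y hy =>
      smul_psd (hH.posDef y hy).posSemidef (by linarith)
    have p1 : ∀ y ∈ T, ((a : ℂ) • H y - (Q y - LM (fun y => ld Q y - ld H y) y)).PosSemidef := by
      intro y hy
      have e : (a : ℂ) • H y - (Q y - LM (fun y => ld Q y - ld H y) y) =
          ((K0 : ℂ) • H y - (rho H y + β y)) + ((1 - δ : ℝ) : ℂ) • H y := by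
        rw [hLM y hy, ha]
        push_cast
        rw [add_smul, sub_smul]
        abel
      rw [e]
      exact (hK0b y hy).2.add (hHd y hy)
    have p2 : ∀ y ∈ T, ((a : ℂ) • H y + LM (fun y => ld Q y - ld H y) y).PosSemidef := by
      intro y hy
      have e : (a : ℂ) • H y + LM (fun y => ld Q y - ld H y) y =
          ((K0 : ℂ) • H y - (rho H y + β y)) + ((1 - δ : ℝ) : ℂ) • H y + Q y := by
        rw [hLM y hy, ha]
        push_cast
        rw [add_smul, sub_smul]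
        abel
      rw [e]
      exact ((hK0b y hy).2.add (hHd y hy)).add (hQk.posDef y hy).posSemidef
    have hdens := hDb Q hQk p2
    obtain ⟨g1, g2⟩ := hTGLG hn T R h χ Q (fun y => β y + (δ : ℂ) • H y) D.her D.trb hQk
      (fun y hy => by
        have e : β y + (δ : ℂ) • H y - χ y = P y * h y + (δ : ℂ) • H y := by
          simp only [hβ]
          abel
        rw [e]
        exact (hPh y hy).add (smul_psd (hH.posDef y hy).posSemidef hδ.le))
      (fun y hy => by rw [hQ.2 y hy, sub_sub])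
    have s1 := hSb Q (fun y => ld Q y - ld H y) (fun y => (Matrix.trace (h y * (Q y)⁻¹)).re)
      hQk hφi p1 hdens g1 (fun y hy => (g2 y hy).1) (fun y hy => (g2 y hy).2) x hx
    have s2 := hAv δ Q hδ hδ1 hQ
    have hVp : 0 < Pool.Agent.Helper95.HS.vol T κ Q := (hNULL0 T R Q hQk κ hκ).1
    have hI : 0 ≤ ∫ y in T, κ y * (Q y).det.re * (Matrix.trace (h y * (Q y)⁻¹)).re := by
      apply setIntegral_nonneg hE.isOpen.measurableSet
      intro y hy
      have hd : 0 < (Q y).det.re := by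
        have := (hQk.posDef y hy).det_pos
        exact (Complex.pos_iff.1 this).1
      exact mul_nonneg (mul_nonneg (hκ.nonneg y) hd.le) (g2 y hy).1.le
    have s3 : (Matrix.trace (h x * (Q x)⁻¹)).re * Pool.Agent.Helper95.HS.vol T κ Q ≤
        |C'| * C2 * Pool.Agent.Helper95.HS.vol T κ Q := by
      refine s1.trans ?_
      calc C' * ∫ y in T, κ y * (Q y).det.re * (Matrix.trace (h y * (Q y)⁻¹)).re
          ≤ |C'| * ∫ y in T, κ y * (Q y).det.re * (Matrix.trace (h y * (Q y)⁻¹)).re :=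
            mul_le_mul_of_nonneg_right (le_abs_self _) hI
        _ ≤ |C'| * (C2 * Pool.Agent.Helper95.HS.vol T κ Q) :=
            mul_le_mul_of_nonneg_left s2 (abs_nonneg _)
        _ = _ := by ring
    have s4 : (Matrix.trace (h x * (Q x)⁻¹)).re ≤ |C'| * C2 := le_of_mul_le_mul_right s3 hVp
    rw [hB]
    linarith
  -- choice of δ
  set δ : ℝ := min 1 (1 / (2 * C * B)) with hδ
  have hCB : 0 < 2 * C * B := by positivity
  have hδpos : 0 < δ := lt_min one_pos (by positivity)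
  have hδ1 : δ ≤ 1 := min_le_left _ _
  have hδ2 : δ * (C * B) ≤ 1 / 2 := by
    have h1 : δ ≤ 1 / (2 * C * B) := min_le_right _ _
    rw [le_div_iff₀ hCB] at h1
    linarith
  obtain ⟨Q, hQ⟩ := tb1 hAYG hWIRT hRHOI D hP hδpos
  have hQk := hQ.1
  -- `Q - δ H` is positive definite
  have hpd : ∀ x ∈ T, (Q x - (δ : ℂ) • H x).PosDef := by
    intro x hx
    have hQx := hQ.1.posDef x hx
    have h1 := le_tr_smul (D.her.posDef x hx).posSemidef hQx (key δ Q hδpos hδ1 hQ x hx)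
    have h2 := (hcmp x hx).2
    -- `Q - δ H = (1/2) Q + (1/2 - δ C B) Q + δ C (B Q - h) + δ (C h - H)`
    have e : Q x - (δ : ℂ) • H x = ((1 / 2 : ℝ) : ℂ) • Q x +
        (((1 / 2 - δ * (C * B) : ℝ) : ℂ) • Q x +
        (((δ * C : ℝ) : ℂ) • ((B : ℂ) • Q x - h x) + ((δ : ℝ) : ℂ) • ((C : ℂ) • h x - H x))) := by
      ext i j
      simp only [Matrix.sub_apply, Matrix.add_apply, Matrix.smul_apply, smul_eq_mul]
      push_cast
      ring
    rw [e]
    apply (smul_pd hQx (by norm_num)).add_posSemidef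
    apply (smul_psd hQx.posSemidef (by linarith)).add
    exact (smul_psd h1 (by positivity)).add (smul_psd h2 hδpos.le)
  -- the function
  obtain ⟨hwi, hwr⟩ := hrho5 Q (her_ket hQk)
  have hμ := D.mu
  have h1μ : 0 < 1 + μ := by linarith
  set e₀ : ℝ := (1 + μ)⁻¹ with he₀
  have he0 : 0 < e₀ := inv_pos.2 h1μ
  have hed : e₀ * (1 + μ) = 1 := inv_mul_cancel₀ h1μ.ne'
  have he1 : e₀ ≤ 1 := inv_le_one_of_one_le₀ (by linarith)
  refine ⟨fun x => e₀ * (ld Q x - ld H x) + e₀ * ψ x, invF_lin hwi D.psi e₀ e₀,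
    fun x hx => ?_⟩
  rw [Pool.Agent.Helper94.HS.LM_lin hWIRT hT hwi.1 D.psi.1 e₀ e₀ hx]
  have h1 := hQ.2 x hx
  rw [hwr x hx] at h1
  have h2 : Q x - (δ : ℂ) • H x = rho H x + LM (fun y => ld Q y - ld H y) x +
      (P x * h x + ((μ : ℂ) • rho H x + LM ψ x)) := by
    have h3 : Q x = rho H x + LM (fun y => ld Q y - ld H y) x + β x + (δ : ℂ) • H x := by
      rw [h1]; abel
    rw [← D.chi x hx]
    rw [h3]
    simp only [hβ]
    abel
  have e : rho H x + ((e₀ : ℂ) • LM (fun y => ld Q y - ld H y) x + (e₀ : ℂ) • LM ψ x) +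
      P x * h x = (e₀ : ℂ) • (Q x - (δ : ℂ) • H x) + ((1 - e₀ : ℝ) : ℂ) • (P x * h x) := by
    have h3 : rho H x = ((e₀ * (1 + μ) : ℝ) : ℂ) • rho H x := by
      rw [hed, Complex.ofReal_one, one_smul]
    rw [h2]
    conv_lhs => rw [h3]
    push_cast
    module
  rw [e]
  exact (smul_pd (hpd x hx) he0).add_posSemidef (smul_psd (hPh x hx) (by linarith))

end Pool.Agent.Helper40.TRB
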