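import Pool.Agent.Helper27.TRB.Goals
import Pool.Agent.Helper10.RBC.Rnk

/-!
# TRB, packet TNK: the numerical dimension
-/

open Complex Metric Set Filter Topology MeasureTheory
open scoped ContDiff ComplexConjugate ComplexOrder Manifold Matrix MatrixOrder

namespace Pool.Agent.Helper40.TRB

open Pool.Agent.Helper95.Lin Pool.Agent.Helper16.Abund Pool.Agent.Helper92.Orb
  Pool.Agent.Helper10.SP Pool.Agent.Helper95.RK Pool.Agent.Helper57.HS
  Pool.Agent.Helper15.HS Pool.Agent.Helper15.GS Pool.Agent.Helper57.RBC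
  Pool.Agent.Helper10.RBC Pool.Agent.Helper27.TRB

universe u v

/-- TNK. -/
theorem tnk (hCMPG : S_CMPG.{u}) (hRLV : S_RLV.{u}) (hRAVL : S_TAVL.{u}) (hRDL : S_RDL)
    (hTRC : Pool.Agent.Helper95.HS.S_TRC) (hNULL0 : Pool.Agent.Helper95.HS.S_NULL0.{u}) :
    S_TNK.{u} := by
  intro n T G _ R H h κ hκ k p hp hV r m P A ε N φ H' Q hL
  have hT : IsOpen T := hL.ket.et.isOpen
  obtain ⟨c, C, -, hC0, hC⟩ := hCMPG T R H h hL.ket hL.her
  obtain ⟨S₀, hS₀⟩ := hL.bd
  set S : ℝ := max S₀ 0 with hS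
  have hS0 : 0 ≤ S := le_max_right _ _
  have hSb : ∀ x ∈ T, (Matrix.trace (A x)).re ≤ S := fun x hx => (hS₀ x hx).trans (le_max_left _ _)
  refine exp_cmp k r (C * S) (mul_nonneg hC0.le hS0) fun t ht => ?_
  have hcc : 0 ≤ t * C := by positivity
  -- the function `F`
  set F : Cn n → Matrix (Fin n) (Fin n) ℂ → ℝ := fun _ X =>
    (1 + ((t * C : ℝ) : ℂ) • X).det.re with hF
  have hFc : ContinuousOn (fun q : Cn n × Matrix (Fin n) (Fin n) ℂ => F q.1 q.2) (T ×ˢ univ) :=
    F_cont T (t * C)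
  have hpt : ∀ x ∈ T, 0 ≤ F x (A x) ∧ F x (A x) ≤ (1 + t * C * S) ^ r := fun x hx =>
    rnk_pt hRDL r (h x) (P x) (A x) (hL.her.posDef x hx) (hL.proj x hx) (hL.tr x hx)
      (hL.PA x hx).1 (hL.pos x hx) S hS0 (hSb x hx) (t * C) hcc
  set b : ℝ := (1 + t * C * S) ^ r with hb
  have hb0 : 0 ≤ b := by positivity
  -- the estimate for every `j` for which the average is controlled
  have ha : ∀ j, 0 < 1 + ε j * N j := fun j => by
    have h1 := (hL.fam j).nn
    have h2 := (hL.eps j).le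
    positivity
  set s : ℕ → ℝ := fun j => ε j / (1 + ε j * N j) with hs
  have hs0 : ∀ j, 0 < s j := fun j => div_pos (hL.eps j) (ha j)
  have hslim : Tendsto s atTop (𝓝 0) := by
    have h1 : Tendsto (fun j => 1 + ε j * N j) atTop (𝓝 (1 + m)) := hL.limN.const_add 1
    have h2 := hL.lim.div h1 (by have := hL.mnn; positivity)
    rw [zero_div] at h2
    exact h2
  have hη : ∀ η : ℝ, 0 < η → (1 + t) ^ k ≤ b + η := by
    intro η hη
    have hav := hRAVL T R H h κ hκ r m P A ε N φ H' Q hL F hFc 0 b hpt η hη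
    have hev : ∀ᶠ j in atTop, (1 + t) ^ k * p.eval (s j * (1 + t)) ≤ p.eval (s j) * (b + η) := by
      filter_upwards [hav] with j hj
      have hQk : KEt T R (Q j) := (hL.tke j).ket
      obtain ⟨hvol, -⟩ := hNULL0 T R (Q j) hQk κ hκ
      obtain ⟨-, hlv⟩ := hRLV T R H hL.ket κ hκ (ε j) (N j) (φ j) (H' j) (Q j) (hL.eps j)
        (hL.fam j) (hL.tke j)
      have h2 := rnk_one hTRC hT hκ hL.ket hL.her hQk t C (ε j) (b + η) ht (hL.eps j)
        (fun x hx => (hC x hx).2) hvol hj.2
      -- volumes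
      have e4 : Pool.Agent.Helper95.HS.vol T κ (Q j) =
          (1 + ε j * N j) ^ n * (s j ^ k * p.eval (s j)) := by
        have h3 := hlv 0
        simp only [Complex.ofReal_zero, zero_smul, add_zero] at h3
        rw [Pool.Agent.Helper95.HS.vol, h3, hV]
      have e5 : ∫ x in T, κ x * (Q j x + ((t * ε j : ℝ) : ℂ) • H x).det.re =
          (1 + ε j * N j) ^ n * ((s j * (1 + t)) ^ k * p.eval (s j * (1 + t))) := by
        have h3 := hlv (t * ε j)
        have h4 : (ε j + t * ε j) / (1 + ε j * N j) = s j * (1 + t) := by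
          simp only [hs]
          ring
        rw [h3, h4, hV]
      rw [e4, e5] at h2
      have hq : 0 < (1 + ε j * N j) ^ n * s j ^ k := by
        have := ha j
        have := hs0 j
        positivity
      have h6 : ((1 + ε j * N j) ^ n * s j ^ k) * ((1 + t) ^ k * p.eval (s j * (1 + t))) ≤
          ((1 + ε j * N j) ^ n * s j ^ k) * (p.eval (s j) * (b + η)) := by
        calc ((1 + ε j * N j) ^ n * s j ^ k) * ((1 + t) ^ k * p.eval (s j * (1 + t)))
            = (1 + ε j * N j) ^ n * ((s j * (1 + t)) ^ k * p.eval (s j * (1 + t))) := by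
              rw [mul_pow]; ring
          _ ≤ (b + η) * ((1 + ε j * N j) ^ n * (s j ^ k * p.eval (s j))) := h2
          _ = _ := by ring
      exact le_of_mul_le_mul_left h6 hq
    have hl1 : Tendsto (fun j => (1 + t) ^ k * p.eval (s j * (1 + t))) atTop
        (𝓝 ((1 + t) ^ k * p.eval 0)) := by
      have h1 : Tendsto (fun j => s j * (1 + t)) atTop (𝓝 (0 * (1 + t))) :=
        hslim.mul_const _
      rw [zero_mul] at h1
      exact ((p.continuous.tendsto 0).comp h1).const_mul _
    have hl2 : Tendsto (fun j => p.eval (s j) * (b + η)) atTop (𝓝 (p.eval 0 * (b + η))) :=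
      ((p.continuous.tendsto 0).comp hslim).mul_const _
    have h7 := le_of_tendsto_of_tendsto hl1 hl2 hev
    have h8 : p.eval 0 * (1 + t) ^ k ≤ p.eval 0 * (b + η) := by linarith
    exact le_of_mul_le_mul_left h8 hp
  have h9 : (1 + t) ^ k ≤ b := le_of_forall_pos_le_add hη
  rw [hb] at h9
  calc (1 + t) ^ k ≤ (1 + t * C * S) ^ r := h9
    _ = (1 + t * (C * S)) ^ r := by ring

end Pool.Agent.Helper40.TRB
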